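import Pool.Agent.Q116.ClosePairs

namespace Pool.Agent.Results.MP_3eb7f1_co.ClosePairs

open Q116.Close

theorem result : ∀ n k : ℕ, 1 ≤ k → k < n → ∀ G : SimpleGraph (Fin n), f0 n k ≤ h k G :=
  fun n k hk hn G => Q116.Close.main n k hk hn G

end Pool.Agent.Results.MP_3eb7f1_co.ClosePairs
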